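import Mathlib

namespace Pool.Agent.Results.MP_6ca30a_an.NoUniversal

open Set Filter Topology Cardinal TopologicalSpace

/-- `X` is complete over `F`: sequences Cauchy over `F` converge over `F`. -/
def Compl (F : Filter ℕ) (X : Type) [AddCommGroup X] [TopologicalSpace X] : Prop :=
  ∀ x : ℕ → X, (∀ U ∈ 𝓝 (0 : X), ∃ B ∈ F, ∀ m ∈ B, ∀ n ∈ B, x m - x n ∈ U) →
    ∃ y, ∀ V ∈ 𝓝 y, ∃ A ∈ F, ∀ n ∈ A, x n ∈ V

/-- some Hausdorff TVS over `𝕜` is complete over `U` but not over some free filter. -/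
def NotUniversal (𝕜 : Type) [NontriviallyNormedField 𝕜] (U : Filter ℕ) : Prop :=
  ∃ (X : Type) (_ : AddCommGroup X) (_ : Module 𝕜 X) (_ : TopologicalSpace X),
    IsTopologicalAddGroup X ∧ ContinuousSMul 𝕜 X ∧ T2Space X ∧ Compl U X ∧
      ∃ F : Filter ℕ, F.NeBot ∧ F ≤ cofinite ∧ ¬ Compl F X

variable {𝕜 : Type} [NontriviallyNormedField 𝕜]

def br : ℕ ⊕ Option 𝕜 → Type
  | .inl _ => Empty
  | .inr _ => ℕ

noncomputable def ev (U : Filter ℕ) (d : ℕ → ℝ → 𝕜) : WType (br (𝕜 := 𝕜)) → ℝ → 𝕜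
  | ⟨.inl n, _⟩ => d n
  | ⟨.inr (some r), f⟩ => ev U d (f (0 : ℕ)) + r • ev U d (f (1 : ℕ))
  | ⟨.inr none, f⟩ => limUnder U fun n : ℕ => ev U d (f n)

lemma card (h : #𝕜 ≤ 𝔠) : #(WType (br (𝕜 := 𝕜))) ≤ 𝔠 := by
  haveI : Nonempty (ℕ ⊕ Option 𝕜) := ⟨.inl 0⟩
  refine WType.cardinalMk_le_of_le ?_
  refine (sum_le_sum _ (fun _ => 𝔠) fun a => ?_).trans ?_
  · rcases a with a | a
    · simpa [br] using one_le_aleph0.trans aleph0_le_continuum
    · simp [br]
  · rw [sum_const']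
    refine (mul_le_mul_left ?_ _).trans continuum_mul_self.le
    simp only [mk_sum, mk_option, lift_id, mk_nat]
    exact add_le_of_le aleph0_le_continuum aleph0_le_continuum
      (add_le_of_le aleph0_le_continuum h (one_le_aleph0.trans aleph0_le_continuum))

lemma dense : ∃ d : ℕ → ℝ → 𝕜, ∀ A : Set ℝ, A.indicator 1 ∈ closure (range d) := by
  obtain ⟨e, he⟩ := exists_surjective_nat (Finset (countableBasis ℝ))
  refine ⟨fun n => (⋃ s ∈ e n, s.1).indicator 1, fun A => mem_closure_iff_nhds.2 fun t ht => ?_⟩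
  rw [nhds_pi, Filter.mem_pi] at ht
  obtain ⟨I, hI, r, hr, hsub⟩ := ht
  have : ∀ x : ℝ, ∃ s : countableBasis ℝ, x ∈ A → x ∈ s.1 ∧ s.1 ⊆ (I \ A)ᶜ := fun x => by
    by_cases hx : x ∈ A
    · obtain ⟨s, h1, h2, h3⟩ := (isBasis_countableBasis ℝ).exists_subset_of_mem_open
        (show x ∈ (I \ A)ᶜ from fun h => h.2 hx) (hI.subset diff_subset).isClosed.isOpen_compl
      exact ⟨⟨s, h1⟩, fun _ => ⟨h2, h3⟩⟩
    · obtain ⟨s, h1, -⟩ := (isBasis_countableBasis ℝ).exists_subset_of_mem_open (mem_univ x)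
        isOpen_univ
      exact ⟨⟨s, h1⟩, fun h => absurd h hx⟩
  choose s hs using this
  classical
  obtain ⟨n, hn⟩ := he ((hI.inter_of_left A).toFinset.image s)
  refine ⟨_, hsub fun x hx => ?_, n, rfl⟩
  convert mem_of_mem_nhds (hr x) using 1
  beta_reduce
  by_cases hA : x ∈ A
  · rw [indicator_of_mem hA, indicator_of_mem]
    exact mem_iUnion₂.2 ⟨s x, by rw [hn]; exact Finset.mem_image_of_mem _ (by simp [hx, hA]),
      (hs x hA).1⟩
  · rw [indicator_of_notMem hA, indicator_of_notMem]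
    intro h
    obtain ⟨u, hu, hxu⟩ := mem_iUnion₂.1 h
    rw [hn, Finset.mem_image] at hu
    obtain ⟨y, hy, rfl⟩ := hu
    exact (hs y (by simp at hy; exact hy.2)).2 hxu ⟨hx, hA⟩

lemma main [CompleteSpace 𝕜] (h : #𝕜 ≤ 𝔠) (U : Filter ℕ) [U.NeBot] : NotUniversal 𝕜 U := by
  obtain ⟨d, hd⟩ := dense (𝕜 := 𝕜)
  have comb : ∀ r : 𝕜, ∀ a ∈ range (ev U d), ∀ b ∈ range (ev U d), a + r • b ∈ range (ev U d) := by
    rintro r _ ⟨a, rfl⟩ _ ⟨b, rfl⟩
    exact ⟨⟨.inr (some r), fun n : ℕ => if n = 0 then a else b⟩, by simp [ev]⟩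
  have hb : ∀ n, d n ∈ range (ev U d) := fun n => ⟨⟨.inl n, Empty.elim⟩, by simp [ev]⟩
  have h0 : 0 ∈ range (ev U d) := by simpa using comb (-1) _ (hb 0) _ (hb 0)
  let X : Submodule 𝕜 (ℝ → 𝕜) :=
    { carrier := range (ev U d)
      zero_mem' := h0
      add_mem' := fun ha hb => by simpa using comb 1 _ ha _ hb
      smul_mem' := fun r x hx => by simpa using comb r _ h0 _ hx }
  obtain ⟨A, hA⟩ : ∃ A : Set ℝ, A.indicator 1 ∉ range (ev U d) := by
    by_contra hh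
    push Not at hh
    have h1 : #(Set ℝ) ≤ #(range (ev U d)) :=
      mk_le_of_injective (f := fun A => ⟨_, hh A⟩) fun A B e =>
        indicator_one_inj 𝕜 (congrArg Subtype.val e)
    rw [mk_set, mk_real] at h1
    exact (cantor 𝔠).not_ge (h1.trans (mk_range_le.trans (card h)))
  refine ⟨X, inferInstance, inferInstance, inferInstance, inferInstance, inferInstance,
    inferInstance, fun x hx => ?_, comap d (𝓝 (A.indicator 1)), ?_, ?_, fun hc => ?_⟩
  · choose t ht using fun n => (x n).2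
    have hc : Cauchy (map (fun n => (x n).1) U) := by
      refine (IsUniformAddGroup.cauchy_map_iff_tendsto _ _).2 ⟨‹_›, fun V hV => ?_⟩
      obtain ⟨B, hB, hBV⟩ := hx _ (continuous_subtype_val.continuousAt hV)
      exact mem_map.2 (mem_of_superset (prod_mem_prod hB hB) fun p hp => hBV _ hp.1 _ hp.2)
    have hl := tendsto_nhds_limUnder (f := U) (g := fun n => (x n).1) (CompleteSpace.complete hc)
    refine ⟨⟨_, ⟨.inr none, t⟩, rfl⟩, fun V hV => ⟨_, ?_, fun n hn => hn⟩⟩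
    refine (tendsto_subtype_rng.2 ?_ : Tendsto x U _) hV
    simpa only [ev, ht] using hl
  · exact comap_neBot fun t ht => by
      obtain ⟨_, h1, n, rfl⟩ := mem_closure_iff_nhds.1 (hd A) t ht
      exact ⟨n, h1⟩
  · refine le_cofinite_iff_eventually_ne.2 fun n => ?_
    refine mem_of_superset (preimage_mem_comap (compl_singleton_mem_nhds
      (fun e : A.indicator 1 = d n => hA (e ▸ hb n)))) fun m hm e => hm (by rw [e]; rfl)
  · haveI : (comap d (𝓝 (A.indicator 1))).NeBot := comap_neBot fun t ht => by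
      obtain ⟨_, h1, n, rfl⟩ := mem_closure_iff_nhds.1 (hd A) t ht
      exact ⟨n, h1⟩
    have ht : Tendsto d (comap d (𝓝 (A.indicator 1))) (𝓝 (A.indicator 1)) := tendsto_comap
    obtain ⟨y, hy⟩ := hc (fun n => ⟨d n, hb n⟩) fun V hV => by
      obtain ⟨W, hW, hWV⟩ := (mem_nhds_subtype _ _ _).1 hV
      have := ((IsUniformAddGroup.cauchy_map_iff_tendsto _ _).1 ht.cauchy_map).2 hW
      obtain ⟨B, hB, hBW⟩ := mem_prod_self_iff.1 this
      exact ⟨B, hB, fun m hm n hn => hWV (hBW (mk_mem_prod hm hn))⟩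
    have h2 : Tendsto d (comap d (𝓝 (A.indicator 1))) (𝓝 y.1) := fun V hV => by
      obtain ⟨B, hB, hBV⟩ := hy _ (continuous_subtype_val.continuousAt hV)
      exact mem_map.2 (mem_of_superset hB hBV)
    exact hA (tendsto_nhds_unique ht h2 ▸ y.2)

theorem result (U : Ultrafilter ℕ) (_hU : (U : Filter ℕ) ≤ cofinite) :
    NotUniversal ℝ U ∧ NotUniversal ℂ U :=
  ⟨main mk_real.le U, main mk_complex.le U⟩

end Pool.Agent.Results.MP_6ca30a_an.NoUniversal
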